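import Pool.Agent.helper94.EU.SpecII

set_option autoImplicit false

open Finset

namespace Pool.Agent.EU

open Pool.Agent.FI Pool.Agent.FJ

private theorem KRN_sinh (a b : ℝ) (ha : |a| ≤ 3) (hb : |b| ≤ 3) : |Real.sinh a - Real.sinh b| ≤ Real.cosh 3 * |a - b| := by
  have h := Convex.norm_image_sub_le_of_norm_deriv_le (f := Real.sinh) (s := Set.Icc (-3 : ℝ) 3) (C := Real.cosh 3) (x := b) (y := a)
    (fun x _ => Real.differentiable_sinh x) (fun x hx => ?_) (convex_Icc _ _) ⟨by linarith [abs_le.1 hb], (abs_le.1 hb).2⟩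
    ⟨by linarith [abs_le.1 ha], (abs_le.1 ha).2⟩
  · simpa [Real.norm_eq_abs] using h
  · rw [Real.deriv_sinh, Real.norm_eq_abs, abs_of_pos (Real.cosh_pos x), Real.cosh_le_cosh, abs_of_pos (by norm_num : (0 : ℝ) < 3), abs_le]
    exact ⟨hx.1, hx.2⟩

private theorem KRN_self (a : ℝ) : |a| ≤ |Real.sinh a| := by
  rw [Real.abs_sinh]
  exact Real.self_le_sinh_iff.2 (abs_nonneg a)

private theorem KRN_core (N w h δ U K K₁ m D : ℝ) (hN : 1 ≤ N) (hw1 : N ≤ w) (hw2 : w ≤ 2 * N) (hK₁ : 1 ≤ K₁) (hK : 2 * K₁ ≤ K)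
    (hU : h * K = U) (hU0 : 0 < U) (hU1 : U ≤ 1) (hm1 : K ≤ K₁ * |m|) (hm2 : |m| ≤ 7 * K) (hδ1 : m * h - h < 2 * δ)
    (hδ2 : 2 * δ < m * h + h) (hδ3 : |δ| ≤ 2) (hD : √8 * D = w * |Real.sinh δ|) :
    0 < D ∧ 0 < δ * (m * h / 2) ∧ |δ - m * h / 2| ≤ h / 2 ∧ |δ| ≤ 4 * U ∧ |m * h / 2| ≤ 4 * U ∧ |m * h / 2| ≤ 3 ∧
    U / (4 * K₁) ≤ |δ| ∧ |1 / D - √8 / (w * |Real.sinh (m * h / 2)|)| ≤ 12 * Real.cosh 3 * (K₁ ^ 2 / (K * U * N)) ∧
    √8 / (w * |Real.sinh (m * h / 2)|) ≤ 12 * Real.cosh 3 * (K₁ / (U * N)) ∧ D ≤ 12 * Real.cosh 3 * (N * U) := by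
  have hKp : 0 < K := by linarith
  have hh0 : 0 < h := by
    by_contra hc
    push Not at hc
    nlinarith
  have hc3 : 1 ≤ Real.cosh 3 := Real.one_le_cosh 3
  have h8a : √8 ≤ 3 := Real.sqrt_le_iff.2 ⟨by norm_num, by norm_num⟩
  have h8b : 2 ≤ √8 := Real.le_sqrt_of_sq_le (by norm_num)
  -- `|m| ≥ 2`
  have hm3 : 2 ≤ |m| := by
    by_contra hc
    push Not at hc
    nlinarith
  have habs : |m * h / 2| = |m| * h / 2 := by
    rw [abs_div, abs_mul, abs_of_pos hh0, abs_of_pos (by norm_num : (0 : ℝ) < 2)]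
  have hdiff : |δ - m * h / 2| ≤ h / 2 := by
    rw [abs_le]; constructor <;> linarith
  have hδlow : |m| * h / 4 ≤ |δ| := by
    have h1 : |m * h / 2| - |δ| ≤ |m * h / 2 - δ| := abs_sub_abs_le_abs_sub _ _
    rw [abs_sub_comm, habs] at h1
    nlinarith
  have hδup : |δ| ≤ |m| * h / 2 + h / 2 := by
    have h1 : |δ| - |m * h / 2| ≤ |δ - m * h / 2| := abs_sub_abs_le_abs_sub _ _
    rw [habs] at h1
    linarith
  have hhK : h ≤ U / 2 := by
    rw [le_div_iff₀ (by norm_num), ← hU]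
    nlinarith
  have hm7 : |m| * h ≤ 7 * U := by
    rw [← hU]
    nlinarith
  have hδpos : 0 < |δ| := lt_of_lt_of_le (by positivity) hδlow
  have hδne : δ ≠ 0 := abs_pos.1 hδpos
  have hmu : |m * h / 2| ≤ 4 * U := by rw [habs]; linarith
  have hdu : |δ| ≤ 4 * U := by linarith
  have hm3' : |m * h / 2| ≤ 3 := by
    have h1 : |m * h / 2| - |δ| ≤ |m * h / 2 - δ| := abs_sub_abs_le_abs_sub _ _
    rw [abs_sub_comm] at h1
    linarith
  have hmh : K * h ≤ K₁ * (|m| * h) := by nlinarith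
  have hUm : U ≤ K₁ * (|m| * h) := by rw [← hU, mul_comm h K]; exact hmh
  have hUδ : U / (4 * K₁) ≤ |δ| := by
    rw [div_le_iff₀ (by positivity)]
    nlinarith
  have hsign : 0 < δ * (m * h / 2) := by
    rcases le_or_gt 0 m with hm0 | hm0
    · rw [abs_of_nonneg hm0] at hm3
      have h1 : 0 < m * h := by positivity
      have h2 : 2 * h ≤ m * h := mul_le_mul_of_nonneg_right hm3 hh0.le
      have h3 : 0 < δ := by linarith
      positivity
    · rw [abs_of_neg hm0] at hm3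
      have h2 : 2 * h ≤ -m * h := mul_le_mul_of_nonneg_right hm3 hh0.le
      have h3 : δ < 0 := by linarith
      have h4 : m * h / 2 < 0 := by linarith
      exact mul_pos_of_neg_of_neg h3 h4
  have hs1 := KRN_self δ
  have hs2 := KRN_self (m * h / 2)
  rw [habs] at hs2
  have hs1p : 0 < |Real.sinh δ| := lt_of_lt_of_le hδpos hs1
  have hs2p : 0 < |Real.sinh (m * h / 2)| := lt_of_lt_of_le (by positivity) hs2
  have hwp : 0 < w := by linarith
  have hDp : 0 < D := by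
    have h1 : 0 < √8 * D := by rw [hD]; positivity
    by_contra hc
    push Not at hc
    nlinarith
  have hDinv : 1 / D = √8 / (w * |Real.sinh δ|) := by
    rw [← hD]
    field_simp
  have hL := KRN_sinh (m * h / 2) δ hm3' (by linarith)
  have hL0 := KRN_sinh δ 0 (by linarith) (by norm_num)
  rw [Real.sinh_zero, sub_zero, sub_zero] at hL0
  refine ⟨hDp, hsign, hdiff, hdu, hmu, hm3', hUδ, ?_, ?_, ?_⟩
  · rw [hDinv]
    have e1 : √8 / (w * |Real.sinh δ|) - √8 / (w * |Real.sinh (m * h / 2)|)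
        = √8 * (|Real.sinh (m * h / 2)| - |Real.sinh δ|) / (w * |Real.sinh δ| * |Real.sinh (m * h / 2)|) := by
      field_simp
    rw [e1, abs_div, abs_mul, abs_of_pos (by linarith : 0 < √8), abs_of_pos (by positivity : 0 < w * |Real.sinh δ| * |Real.sinh (m * h / 2)|)]
    have e2 : |(|Real.sinh (m * h / 2)| - |Real.sinh δ|)| ≤ Real.cosh 3 * (h / 2) := by
      refine (abs_abs_sub_abs_le_abs_sub _ _).trans (hL.trans ?_)
      rw [abs_sub_comm]
      exact mul_le_mul_of_nonneg_left hdiff (by linarith)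
    have e3 : N * (|m| * h / 4) * (|m| * h / 2) ≤ w * |Real.sinh δ| * |Real.sinh (m * h / 2)| := by
      refine mul_le_mul (mul_le_mul hw1 (hδlow.trans hs1) (by positivity) hwp.le) hs2 (by positivity) (by positivity)
    have e4 : √8 * |(|Real.sinh (m * h / 2)| - |Real.sinh δ|)| ≤ 3 * (Real.cosh 3 * (h / 2)) :=
      mul_le_mul h8a e2 (abs_nonneg _) (by norm_num)
    refine (div_le_div₀ (by positivity) e4 (by positivity) e3).trans ?_
    rw [← mul_div_assoc (12 * Real.cosh 3), div_le_div_iff₀ (by positivity) (by positivity)]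
    -- `K U N h ≤ 8 ... `
    have e5 : K * U ≤ K₁ ^ 2 * (|m| ^ 2 * h) := by
      rw [← hU]
      have : K * (h * K) = K ^ 2 * h := by ring
      rw [this, ← mul_assoc, ← mul_pow]
      exact mul_le_mul_of_nonneg_right (pow_le_pow_left₀ hKp.le hm1 2) hh0.le
    have e6 : 3 * (Real.cosh 3 * (h / 2)) * (K * U * N) ≤ 3 * (Real.cosh 3 * (h / 2)) * (K₁ ^ 2 * (|m| ^ 2 * h) * N) := by
      refine mul_le_mul_of_nonneg_left (mul_le_mul_of_nonneg_right e5 (by linarith)) (by positivity)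
    refine e6.trans (le_of_eq ?_)
    ring
  · have e3 : N * (|m| * h / 2) ≤ w * |Real.sinh (m * h / 2)| := mul_le_mul hw1 hs2 (by positivity) hwp.le
    refine (div_le_div₀ (by norm_num : (0 : ℝ) ≤ 3) h8a (by positivity) e3).trans ?_
    rw [← mul_div_assoc (12 * Real.cosh 3), div_le_div_iff₀ (by positivity) (by positivity)]
    have e5 : U * N ≤ K₁ * (|m| * h) * N := mul_le_mul_of_nonneg_right hUm (by linarith)
    have e6 : 0 ≤ K₁ * (|m| * h) * N := by positivity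
    nlinarith
  · have e1 : 2 * D ≤ √8 * D := mul_le_mul_of_nonneg_right h8b hDp.le
    rw [hD] at e1
    have e2 : w * |Real.sinh δ| ≤ 2 * N * (Real.cosh 3 * (4 * U)) :=
      mul_le_mul hw2 (hL0.trans (mul_le_mul_of_nonneg_left hdu (by linarith))) (abs_nonneg _) (by linarith)
    have e3 : 0 ≤ Real.cosh 3 * (N * U) := by positivity
    nlinarith

theorem KRN (hGEO : GEO_stmt) (hWND : WND_stmt) : KRN_stmt := by
  classical
  have hc3 : 1 ≤ Real.cosh 3 := Real.one_le_cosh 3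
  refine ⟨12 * Real.cosh 3, by positivity, fun x N A K K₁ hx hN hA hAx hK₁ hK θ p hp => ?_⟩
  unfold PW at hp
  rw [mem_filter, mem_product] at hp
  obtain ⟨⟨hz, hz'⟩, hsgn, hm1, hm2⟩ := hp
  obtain ⟨g1, -, g3⟩ := hGEO N hN p.1 hz p.2 hz' hsgn
  have hx' : (1 : ℝ) ≤ x := by exact_mod_cast hx
  have hN' : (1 : ℝ) ≤ N := by exact_mod_cast hN
  have hA' : (1 : ℝ) ≤ A := by exact_mod_cast hA
  have hAx' : (A : ℝ) ≤ x := by exact_mod_cast hAx
  have hK₁' : (1 : ℝ) ≤ K₁ := by exact_mod_cast hK₁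
  have hK' : 2 * (K₁ : ℝ) ≤ K := by exact_mod_cast hK
  have hKp : (0 : ℝ) < K := by linarith
  have hhp : 0 < hh x A K := by unfold hh; positivity
  have hW := hWND.2.1 (hh x A K) θ p.1 p.2 hhp
  have hUeq : hh x A K * K = (A : ℝ) / x := by
    unfold hh
    field_simp
  have hzf : ∀ z ∈ ZD N, (N : ℝ) ≤ nn z ∧ (nn z : ℝ) ≤ 2 * N := by
    intro z hz
    unfold ZD FF at hz
    simp only [mem_filter] at hz
    refine ⟨by exact_mod_cast hz.2.1.le, by exact_mod_cast hz.1.2.2⟩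
  obtain ⟨a1, a2⟩ := hzf _ hz
  obtain ⟨b1, b2⟩ := hzf _ hz'
  have hw1 : (N : ℝ) ≤ √(nn p.1) * √(nn p.2) := by
    rw [← Real.sqrt_mul (Nat.cast_nonneg _)]
    refine Real.le_sqrt_of_sq_le ?_
    rw [pow_two]
    exact mul_le_mul a1 b1 (by linarith) (by linarith)
  have hw2 : √(nn p.1) * √(nn p.2) ≤ 2 * (N : ℝ) := by
    rw [← Real.sqrt_mul (Nat.cast_nonneg _)]
    refine Real.sqrt_le_iff.2 ⟨by linarith, ?_⟩
    rw [pow_two]
    exact mul_le_mul a2 b2 (Nat.cast_nonneg _) (by linarith)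
  have hsg : |((N8 p.1).sign : ℝ)| = 1 := by
    have h1 : N8 p.1 ≠ 0 := by
      intro h
      have : nn p.1 = 0 := by unfold nn; rw [h]; rfl
      rw [this] at a1
      norm_num at a1
      linarith
    rcases lt_or_gt_of_ne h1 with h | h
    · rw [Int.sign_eq_neg_one_of_neg h]; norm_num
    · rw [Int.sign_eq_one_of_pos h]; norm_num
  have hD : √8 * ((dl p.1 p.2).natAbs : ℝ) = √(nn p.1) * √(nn p.2) * |Real.sinh (dd p.1 p.2)| := by
    have h1 : ((dl p.1 p.2).natAbs : ℝ) = |(dl p.1 p.2 : ℝ)| := by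
      rw [← Int.cast_abs, Int.abs_eq_natAbs]
      rfl
    have h2 : |√8 * (dl p.1 p.2 : ℝ)| = |((N8 p.1).sign : ℝ)| * |√(nn p.1) * √(nn p.2) * Real.sinh (dd p.1 p.2)| := by
      rw [g1, abs_mul]
    have h3 : |√8 * (dl p.1 p.2 : ℝ)| = √8 * |(dl p.1 p.2 : ℝ)| := by rw [abs_mul, abs_of_nonneg (Real.sqrt_nonneg _)]
    have h4 : |√(nn p.1) * √(nn p.2) * Real.sinh (dd p.1 p.2)| = √(nn p.1) * √(nn p.2) * |Real.sinh (dd p.1 p.2)| := by
      rw [abs_mul, abs_of_nonneg (mul_nonneg (Real.sqrt_nonneg _) (Real.sqrt_nonneg _))]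
    rw [h1, ← h3, h2, hsg, one_mul, h4]
  have hdd : yy p.1 - yy p.2 = 2 * dd p.1 p.2 := by unfold dd; ring
  rw [hdd] at hW
  obtain ⟨m, hm⟩ : ∃ m : ℤ, m = kk (hh x A K) θ p.1 - kk (hh x A K) θ p.2 := ⟨_, rfl⟩
  unfold kap8
  rw [← hm] at hW hm1 hm2 ⊢
  have hm1' : (K : ℝ) ≤ K₁ * |(m : ℝ)| := by
    have : ((K : ℤ) : ℝ) ≤ ((K₁ * |m| : ℤ) : ℝ) := by exact_mod_cast hm1
    push_cast at this
    exact this
  have hm2' : |(m : ℝ)| ≤ 7 * K := by
    have : ((|m| : ℤ) : ℝ) ≤ ((7 * K : ℤ) : ℝ) := by exact_mod_cast hm2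
    push_cast at this
    exact this
  have hcore := KRN_core N (√(nn p.1) * √(nn p.2)) (hh x A K) (dd p.1 p.2) (A / x) K K₁ m ((dl p.1 p.2).natAbs)
    hN' hw1 hw2 hK₁' hK' hUeq (by positivity) ((div_le_one (by positivity)).2 hAx') hm1' hm2' hW.1 hW.2 g3 hD
  obtain ⟨c1, c2, c3, c4, c5, c6, c7, c8, c9, c10⟩ := hcore
  refine ⟨?_, c2, c3, c4, c5, c6, ?_, ?_, ?_, ?_⟩
  · intro h
    rw [h] at c1
    simp at c1
  · rwa [div_div] at c7
  · refine c8.trans (le_of_eq ?_)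
    field_simp
  · refine c9.trans (le_of_eq ?_)
    field_simp
  · refine c10.trans (le_of_eq ?_)
    ring

end Pool.Agent.EU
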