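import Pool.Agent.helper6.EU.SpecT

set_option autoImplicit false

open Finset

namespace Pool.Agent.EU

open Pool.Agent.FI Pool.Agent.FJ

private theorem TAL_Zr (y : ℝ) (hy : 2 < y) : ∃ r : ℕ, y ≤ Zr r ∧ (Zr r : ℝ) ≤ y ^ 2 := by
  have hex : ∃ r : ℕ, y ≤ (Zr r : ℝ) := by
    refine ⟨⌈y⌉₊, (Nat.le_ceil y).trans ?_⟩
    have h1 : ⌈y⌉₊ ≤ Zr ⌈y⌉₊ := by
      unfold Zr
      calc ⌈y⌉₊ ≤ 2 ^ ⌈y⌉₊ := Nat.lt_two_pow_self.le
        _ ≤ 2 ^ 2 ^ ⌈y⌉₊ := Nat.lt_two_pow_self.le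
    exact_mod_cast h1
  classical
  have h2 := Nat.find_spec hex
  set r := Nat.find hex with hr
  have hr0 : r ≠ 0 := by
    intro h
    rw [h] at h2
    unfold Zr at h2
    norm_num at h2
    linarith
  obtain ⟨s, hs⟩ := Nat.exists_eq_succ_of_ne_zero hr0
  have h3 : ¬ y ≤ (Zr s : ℝ) := Nat.find_min hex (by omega)
  push Not at h3
  refine ⟨r, h2, ?_⟩
  have h4 : Zr r = Zr s ^ 2 := by
    rw [hs]
    unfold Zr
    rw [← pow_mul, Nat.succ_eq_add_one, pow_succ]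
  rw [h4]
  push_cast
  exact pow_le_pow_left₀ (Nat.cast_nonneg _) h3.le 2

/-- everything which holds for large `x` -/
private theorem TAL_large (η K : ℝ) (hη : 0 < η) : ∃ x₀ : ℕ, ∀ x : ℕ, x₀ ≤ x → 4 ≤ x ∧ (2 : ℝ) ≤ (x : ℝ) ^ (η / 8) ∧ K ≤ Real.log x := by
  have h1 : Filter.Tendsto (fun x : ℕ => (x : ℝ) ^ (η / 8)) Filter.atTop Filter.atTop :=
    (tendsto_rpow_atTop (by positivity)).comp tendsto_natCast_atTop_atTop
  have h2 : Filter.Tendsto (fun x : ℕ => Real.log (x : ℝ)) Filter.atTop Filter.atTop :=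
    Real.tendsto_log_atTop.comp tendsto_natCast_atTop_atTop
  have h3 := ((Filter.eventually_ge_atTop 4).and ((h1.eventually_ge_atTop 2).and (h2.eventually_ge_atTop K)))
  obtain ⟨x₀, h⟩ := Filter.eventually_atTop.1 h3
  exact ⟨x₀, fun x hx => h x hx⟩

private theorem TAL_ceil {x : ℕ} {a b η : ℝ} (hx : 4 ≤ x) (h : (2 : ℝ) ≤ (x : ℝ) ^ (η / 8)) (ha : 0 ≤ a) (hab : a + η / 8 ≤ b) :
    ((⌈(x : ℝ) ^ a⌉₊ : ℕ) : ℝ) ≤ (x : ℝ) ^ b := by
  have hx1 : (1 : ℝ) ≤ x := by exact_mod_cast (by omega : 1 ≤ x)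
  have h1 : (1 : ℝ) ≤ (x : ℝ) ^ a := Real.one_le_rpow hx1 ha
  have h2 := (Nat.ceil_lt_add_one (by linarith : (0 : ℝ) ≤ (x : ℝ) ^ a)).le
  have h3 : (x : ℝ) ^ (a + η / 8) = (x : ℝ) ^ a * (x : ℝ) ^ (η / 8) := Real.rpow_add (by linarith) _ _
  have h4 : (x : ℝ) ^ (a + η / 8) ≤ (x : ℝ) ^ b := Real.rpow_le_rpow_of_exponent_le hx1 hab
  have h5 : (x : ℝ) ^ a * 2 ≤ (x : ℝ) ^ a * (x : ℝ) ^ (η / 8) := mul_le_mul_of_nonneg_left h (by linarith)
  linarith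

theorem TAL (hTEM : TEM_stmt) (hTCM : TCM_stmt) : TAL_stmt := by
  classical
  intro η hη ε hε C
  by_cases hη3 : 1 / 3 < η
  · refine ⟨2, fun x hx A hA hAx => ?_⟩
    exfalso
    have hx1 : (1 : ℝ) < x := by exact_mod_cast (by omega : 1 < x)
    have h1 : (x : ℝ) ^ (1 : ℝ) < (x : ℝ) ^ (2 / 3 + η) := Real.rpow_lt_rpow_of_exponent_lt hx1 (by linarith)
    rw [Real.rpow_one] at h1
    have h2 : (A : ℝ) ≤ x := by exact_mod_cast hAx
    linarith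
  push Not at hη3
  obtain ⟨C₁, hC₁⟩ := hTEM (η / 2) (by positivity) (C + 2)
  obtain ⟨C₂, hC₂⟩ := hTCM η hη (ε / 2) (by positivity)
  obtain ⟨C₀, hC₀⟩ : ∃ C₀ : ℕ, C₀ = C₁ + C₂ + 1 := ⟨_, rfl⟩
  obtain ⟨x₁, hx₁⟩ := hC₁ C₀ (by omega)
  obtain ⟨x₂, hx₂⟩ := hC₁ (C₀ + 1) (by omega)
  obtain ⟨x₃, hx₃⟩ := hC₂ C₀ (by omega)
  obtain ⟨x₄, hx₄⟩ := TAL_large η (2 ^ C₀ + 3 + 2 / ε) hη
  refine ⟨x₁ + x₂ + x₃ + x₄, fun x hx A hA hAx => ?_⟩
  obtain ⟨hx4, hxη, hxL⟩ := hx₄ x (by omega)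
  have hε2 : 0 < 2 / ε := by positivity
  have hx1 : (1 : ℝ) ≤ x := by exact_mod_cast (by omega : 1 ≤ x)
  have hx4' : (4 : ℝ) ≤ x := by exact_mod_cast hx4
  obtain ⟨L, hL⟩ : ∃ L : ℝ, L = Real.log x := ⟨_, rfl⟩
  have hL4 : Real.log (4 * x) = Real.log 4 + L := by
    rw [hL]; exact Real.log_mul (by norm_num) (by positivity)
  have hlog4 : Real.log 4 ≤ L := by
    rw [hL]; exact Real.log_le_log (by norm_num) hx4'
  have hlog4' : 0 < Real.log 4 := Real.log_pos (by norm_num)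
  rw [← hL] at hxL
  have h2C : (1 : ℝ) ≤ 2 ^ C₀ := one_le_pow₀ (by norm_num)
  have hL3 : 3 ≤ L := by linarith
  have hLle : L ≤ Real.log (4 * x) := by rw [hL4]; linarith
  have hL2 : Real.log (4 * x) ≤ 2 * L := by rw [hL4]; linarith
  -- the choice of `r`
  have hy : 2 < Real.log (4 * x) ^ C₀ := by
    have h1 : Real.log (4 * x) ^ 1 ≤ Real.log (4 * x) ^ C₀ := pow_le_pow_right₀ (by linarith) (by omega)
    rw [pow_one] at h1
    linarith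
  obtain ⟨r, hr1, hr2⟩ := TAL_Zr _ hy
  rw [← pow_mul, mul_comm C₀ 2] at hr2
  -- comparison of the main terms
  have hcm := hx₃ x (by omega) r hr1 hr2 A hA hAx
  -- the mean value
  have hA0 : (0 : ℝ) < A := lt_of_lt_of_le (Real.rpow_pos_of_pos (by linarith) _) hA
  have hA' : (x : ℝ) ^ (2 / 3 + η / 2) ≤ A := (Real.rpow_le_rpow_of_exponent_le hx1 (by linarith)).trans hA
  have hU1 : (x : ℝ) ^ (2 / 3 - η / 2) ≤ (Up η x : ℕ) :=
    (Real.rpow_le_rpow_of_exponent_le hx1 (by linarith)).trans (Nat.le_ceil _)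
  have hU2 : ((Up η x : ℕ) : ℝ) ≤ (x : ℝ) ^ (2 / 3 - η / 2 / 4) := TAL_ceil hx4 hxη (by linarith) (by linarith)
  have hD1 : (x : ℝ) ^ (2 / 3 + η / 2 / 4) ≤ (Dp η x : ℕ) :=
    (Real.rpow_le_rpow_of_exponent_le hx1 (by linarith)).trans (Nat.le_ceil _)
  have hD2 : ((Dp η x : ℕ) : ℝ) ≤ (x : ℝ) ^ (2 / 3 + 3 * (η / 2) / 4) := TAL_ceil hx4 hxη (by linarith) (by linarith)
  obtain ⟨M, hM⟩ : ∃ M : ℤ → ℝ, M = Mn r (Up η x) (Up η x) (Dp η x) A := ⟨_, rfl⟩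
  obtain ⟨lm, hlm⟩ : ∃ lm : ℤ → ℝ, lm = fun l => if (x : ℤ) < l ∧ l ≤ 2 * x ∧ l.toNat.Prime then (if 0 ≤ Ls A l - M l then 1 else -1) else 0 := ⟨_, rfl⟩
  have hlm1 : ∀ l, |lm l| ≤ 2 * Real.log x := by
    intro l
    rw [hlm, ← hL]
    dsimp only
    split_ifs
    · rw [abs_one]; linarith
    · rw [abs_neg, abs_one]; linarith
    · rw [abs_zero]; linarith
  have hlm2 : ∀ l, lm l ≠ 0 → (x : ℤ) < l ∧ l ≤ 2 * x ∧ l.toNat.Prime := by
    intro l h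
    by_contra h2
    apply h
    rw [hlm]
    exact if_neg h2
  have hmean : |∑ l ∈ Ioc (x : ℤ) (2 * x), lm l * (Ls A l - M l)| ≤ A * x / L ^ (C + 2) := by
    rw [hM, hL]
    by_cases hcase : (Zr r : ℝ) ≤ Real.log x ^ (2 * C₀)
    · refine hx₁ x (by omega) r ?_ hcase A hA' hAx _ _ _ hU1 hU2 hU1 hU2 hD1 hD2 lm hlm1 hlm2
      refine (pow_le_pow_left₀ ?_ ?_ C₀).trans hr1
      · rw [← hL]; linarith
      · rw [← hL]; exact hLle
    · push Not at hcase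
      refine hx₂ x (by omega) r ?_ ?_ A hA' hAx _ _ _ hU1 hU2 hU1 hU2 hD1 hD2 lm hlm1 hlm2
      · refine (pow_le_pow_right₀ ?_ (by omega)).trans hcase.le
        rw [← hL]; linarith
      · refine hr2.trans ?_
        rw [← hL]
        have h1 : Real.log (4 * x) ^ (2 * C₀) ≤ (2 * L) ^ (2 * C₀) := pow_le_pow_left₀ (by linarith) hL2 _
        refine h1.trans ?_
        rw [mul_pow]
        have h2 : L ^ (2 * (C₀ + 1)) = L ^ 2 * L ^ (2 * C₀) := by ring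
        rw [h2]
        refine mul_le_mul_of_nonneg_right ?_ (by positivity)
        have h3 : (2 : ℝ) ^ (2 * C₀) = (2 ^ C₀) ^ 2 := by rw [← pow_mul, mul_comm]
        rw [h3]
        exact pow_le_pow_left₀ (by positivity) (by linarith) 2
  -- the bad primes
  have hterm : ∀ l ∈ Ioc (x : ℤ) (2 * x), 0 ≤ lm l * (Ls A l - M l) := by
    intro l _
    rw [hlm]
    dsimp only
    split_ifs with h1 h2
    · linarith
    · push Not at h2; linarith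
    · simp
  have hbad : ∀ l ∈ Ioc (x : ℤ) (2 * x), l.toNat.Prime → ε * A < |Ls A l - √8 / lep * Sg * A| → ε / 2 * A ≤ lm l * (Ls A l - M l) := by
    intro l hl hp hb
    rw [mem_Ioc] at hl
    have h1 : lm l * (Ls A l - M l) = |Ls A l - M l| := by
      rw [hlm]
      dsimp only
      rw [if_pos ⟨hl.1, hl.2, hp⟩]
      split_ifs with h2
      · rw [abs_of_nonneg h2]; ring
      · push Not at h2
        rw [abs_of_neg h2]; ring
    rw [h1]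
    have h2 := hcm l hl.1 hl.2
    rw [← hM] at h2
    have h3 : |Ls A l - √8 / lep * Sg * A| ≤ |Ls A l - M l| + |M l - √8 / lep * Sg * A| := abs_sub_le _ _ _
    linarith
  obtain ⟨S, hS⟩ : ∃ S : Finset ℤ, S = {l ∈ Ioc (x : ℤ) (2 * x) | l.toNat.Prime ∧ ε * A < |Ls A l - √8 / lep * Sg * A|} := ⟨_, rfl⟩
  have hcount : (#S : ℝ) * (ε / 2 * A) ≤ A * x / L ^ (C + 2) := by
    calc (#S : ℝ) * (ε / 2 * A) = ∑ l ∈ S, ε / 2 * A := by rw [sum_const, nsmul_eq_mul]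
      _ ≤ ∑ l ∈ S, lm l * (Ls A l - M l) := by
        refine sum_le_sum fun l hl => ?_
        rw [hS, mem_filter] at hl
        exact hbad l hl.1 hl.2.1 hl.2.2
      _ ≤ ∑ l ∈ Ioc (x : ℤ) (2 * x), lm l * (Ls A l - M l) := by
        refine sum_le_sum_of_subset_of_nonneg ?_ fun l hl _ => hterm l hl
        rw [hS]
        exact filter_subset _ _
      _ ≤ |∑ l ∈ Ioc (x : ℤ) (2 * x), lm l * (Ls A l - M l)| := le_abs_self _
      _ ≤ _ := hmean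
  have hfin : (#S : ℝ) ≤ x / L ^ C := by
    have hLp : 0 < L := by linarith
    have h1 : (#S : ℝ) * (ε / 2) ≤ x / L ^ (C + 2) := by
      have h2 : (#S : ℝ) * (ε / 2) * A ≤ x / L ^ (C + 2) * A := by
        calc (#S : ℝ) * (ε / 2) * A = (#S : ℝ) * (ε / 2 * A) := by ring
          _ ≤ A * x / L ^ (C + 2) := hcount
          _ = x / L ^ (C + 2) * A := by ring
      exact le_of_mul_le_mul_right h2 hA0
    have h3 : (x : ℝ) / L ^ (C + 2) = x / L ^ C / L ^ 2 := by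
      rw [div_div, ← pow_add]
    rw [h3] at h1
    have h4 : 2 / ε ≤ L ^ 2 := by nlinarith
    have h5 : (0 : ℝ) ≤ x / L ^ C := by positivity
    have h6 : (x : ℝ) / L ^ C / L ^ 2 ≤ x / L ^ C * (ε / 2) := by
      rw [div_eq_mul_inv]
      refine mul_le_mul_of_nonneg_left ?_ h5
      rw [inv_le_comm₀ (by positivity) (by positivity), inv_div]
      exact h4
    have h7 : (#S : ℝ) * (ε / 2) ≤ x / L ^ C * (ε / 2) := h1.trans h6
    exact le_of_mul_le_mul_right h7 (by positivity)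
  rw [hS, hL] at hfin
  exact hfin

end Pool.Agent.EU
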